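import Mathlib

set_option autoImplicit false

namespace Pool.Agent.Results.MP_4671c3_co.LogRank

/-- A finite set of triples (row, column, symbol) embeds in the abelian group `G`. -/
def Embeds (P : Finset (ℕ × ℕ × ℕ)) (G : Type) [AddCommGroup G] : Prop :=
  ∃ α β γ : ℕ → G, Set.InjOn α {r | ∃ x ∈ P, x.1 = r} ∧ Set.InjOn β {c | ∃ x ∈ P, x.2.1 = c} ∧
    Set.InjOn γ {s | ∃ x ∈ P, x.2.2 = s} ∧ ∀ x ∈ P, α x.1 + β x.2.1 = γ x.2.2

abbrev Q := AddCircle (1 : ℚ)

open Classical in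
lemma half {G : Type} [AddCommGroup G] (S : Finset G) (hS : ∀ s ∈ S, s ≠ 0) :
    ∃ χ : G →+ Q, 2 * (S.filter fun s => χ s = 0).card ≤ S.card := by
  induction S using Finset.strongInduction with
  | H S ih =>
    rcases S.eq_empty_or_nonempty with rfl | ⟨a, ha⟩
    · exact ⟨0, by simp⟩
    obtain ⟨ψ0, hψ⟩ := CharacterModule.exists_character_apply_ne_zero_of_ne_zero (hS a ha)
    let ψ : G →+ Q := ψ0
    have hψ' : ψ a ≠ 0 := hψ
    obtain ⟨χ, hχ⟩ := ih (S.filter fun s => ψ s = 0)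
      (Finset.filter_ssubset.2 ⟨a, ha, hψ'⟩) (fun s hs => hS s (Finset.mem_filter.1 hs).1)
    have e0 := Finset.card_filter_add_card_filter_not (s := S) fun s => ψ s = 0
    have e1 := Finset.card_filter_add_card_filter_not (s := S.filter fun s => χ s = 0)
      fun s => ψ s = 0
    have e2 := Finset.card_filter_add_card_filter_not (s := S.filter fun s => (χ + ψ) s = 0)
      fun s => ψ s = 0
    have a1 : (S.filter fun s => χ s = 0).filter (fun s => ψ s = 0) =
        (S.filter fun s => ψ s = 0).filter fun s => χ s = 0 := Finset.filter_comm _ _ _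
    have a2 : (S.filter fun s => (χ + ψ) s = 0).filter (fun s => ψ s = 0) =
        (S.filter fun s => ψ s = 0).filter fun s => χ s = 0 := by
      ext s
      simp only [Finset.mem_filter, AddMonoidHom.add_apply]
      constructor
      · rintro ⟨⟨h1, h2⟩, h3⟩
        exact ⟨⟨h1, h3⟩, by simpa [h3] using h2⟩
      · rintro ⟨⟨h1, h2⟩, h3⟩
        exact ⟨⟨h1, by simp [h2, h3]⟩, h2⟩
    have a3 : ((S.filter fun s => χ s = 0).filter (fun s => ¬ ψ s = 0)).card +
        ((S.filter fun s => (χ + ψ) s = 0).filter (fun s => ¬ ψ s = 0)).card ≤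
        (S.filter fun s => ¬ ψ s = 0).card := by
      rw [← Finset.card_union_of_disjoint]
      · refine Finset.card_le_card fun s hs => ?_
        simp only [Finset.mem_union, Finset.mem_filter] at hs ⊢
        rcases hs with h | h <;> exact ⟨h.1.1, h.2⟩
      · refine Finset.disjoint_left.2 fun s h1 h2 => ?_
        simp only [Finset.mem_filter, AddMonoidHom.add_apply] at h1 h2
        exact h1.2 (by simpa [h1.1.2] using h2.1.2)
    rw [a1] at e1
    rw [a2] at e2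
    by_cases c : 2 * (S.filter fun s => χ s = 0).card ≤ S.card
    · exact ⟨χ, c⟩
    · exact ⟨χ + ψ, by omega⟩

lemma many {G : Type} [AddCommGroup G] (t : ℕ) : ∀ S : Finset G, (∀ s ∈ S, s ≠ 0) →
    S.card < 2 ^ t → ∃ φ : Fin t → (G →+ Q), ∀ s ∈ S, ∃ i, φ i s ≠ 0 := by
  classical
  induction t with
  | zero =>
    intro S _ h
    have : S = ∅ := Finset.card_eq_zero.1 (by simpa using h)
    exact ⟨fun _ => 0, by simp [this]⟩
  | succ t ih =>
    intro S hS h
    obtain ⟨χ, hχ⟩ := half S hS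
    obtain ⟨φ, hφ⟩ := ih (S.filter fun s => χ s = 0)
      (fun s hs => hS s (Finset.mem_filter.1 hs).1) (by
        rw [pow_succ] at h
        have : 2 * (S.filter fun s => χ s = 0).card ≤ S.card := by convert hχ
        omega)
    refine ⟨Fin.cons χ φ, fun s hs => ?_⟩
    by_cases c : χ s = 0
    · obtain ⟨i, hi⟩ := hφ s (Finset.mem_filter.2 ⟨hs, c⟩)
      exact ⟨i.succ, by simpa using hi⟩
    · exact ⟨0, by simpa using c⟩

lemma cyc (U : Finset Q) : ∃ g : Q, ∀ x ∈ U, ∃ k : ℤ, x = k • g := by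
  have h : ∀ x : Q, ∃ q : ℚ, (q : Q) = x := fun x => QuotientAddGroup.mk_surjective x
  choose q hq using h
  let N : ℕ := ∏ x ∈ U, (q x).den
  have hN : (N : ℚ) ≠ 0 := by
    exact_mod_cast Finset.prod_ne_zero_iff.2 fun x _ => (q x).den_nz
  refine ⟨((1 / N : ℚ) : Q), fun x hx => ?_⟩
  obtain ⟨m, hm⟩ : (q x).den ∣ N := Finset.dvd_prod_of_mem _ hx
  refine ⟨(q x).num * m, ?_⟩
  rw [← AddCircle.coe_zsmul, ← hq x]
  congr 1
  have hd : ((q x).den : ℚ) ≠ 0 := by exact_mod_cast (q x).den_nz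
  rw [hq x, zsmul_eq_mul, mul_one_div, eq_div_iff hN, hm]
  push_cast
  rw [← mul_assoc, Rat.mul_den_eq_num]

lemma small {G : Type} [AddCommGroup G] (U : Finset G) (t : ℕ) (h : U.card * U.card < 2 ^ t) :
    ∃ (H : Type) (_ : AddCommGroup H) (T : Finset H) (f : G → H), T.card ≤ t ∧
      AddSubgroup.closure (T : Set H) = ⊤ ∧ Set.InjOn f U ∧
      ∀ a ∈ U, ∀ b ∈ U, ∀ c ∈ U, a + b = c → f a + f b = f c := by
  classical
  obtain ⟨φ, hφ⟩ := many t (((U ×ˢ U).image fun p => p.1 - p.2).erase 0)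
    (fun s hs => (Finset.mem_erase.1 hs).1)
    (lt_of_le_of_lt (Finset.card_erase_le.trans (Finset.card_image_le.trans (by simp))) h)
  obtain ⟨g, hg⟩ := cyc ((U ×ˢ (Finset.univ : Finset (Fin t))).image fun p => φ p.2 p.1)
  let K : AddSubgroup Q := AddSubgroup.zmultiples g
  have hK : ∀ a ∈ U, ∀ i, φ i a ∈ K := fun a ha i => by
    obtain ⟨k, hk⟩ := hg (φ i a) (Finset.mem_image.2 ⟨(a, i), by simp [ha], rfl⟩)
    exact ⟨k, hk.symm⟩
  let g' : K := ⟨g, AddSubgroup.mem_zmultiples g⟩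
  refine ⟨Fin t → K, inferInstance, Finset.univ.image fun i => Pi.single i g',
    fun a i => if ha : a ∈ U then ⟨φ i a, hK a ha i⟩ else 0,
    Finset.card_image_le.trans (by simp), ?_, ?_, ?_⟩
  · rw [eq_top_iff]
    intro x _
    rw [← Finset.univ_sum_single x]
    refine AddSubgroup.sum_mem _ fun i _ => ?_
    obtain ⟨k, hk⟩ := (x i).2
    have : Pi.single i (x i) = k • (Pi.single i g' : Fin t → K) := by
      rw [← Pi.single_smul]
      congr 1
      exact Subtype.ext hk.symm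
    rw [this]
    exact AddSubgroup.zsmul_mem _ (AddSubgroup.subset_closure (by simp)) _
  · intro a ha b hb e
    have ha' : a ∈ U := ha
    have hb' : b ∈ U := hb
    by_contra hne
    obtain ⟨i, hi⟩ := hφ (a - b) (Finset.mem_erase.2 ⟨sub_ne_zero.2 hne,
      Finset.mem_image.2 ⟨(a, b), by simp [ha', hb'], rfl⟩⟩)
    have := congrArg Subtype.val (congrFun e i)
    simp only [dif_pos ha', dif_pos hb'] at this
    exact hi (by rw [map_sub, this, sub_self])
  · intro a ha b hb c hc e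
    funext i
    apply Subtype.ext
    simp only [Pi.add_apply, dif_pos ha, dif_pos hb, dif_pos hc, AddSubgroup.coe_add]
    rw [← map_add, e]

theorem result (W B : Finset (ℕ × ℕ × ℕ)) (n t : ℕ) (hW : W.card = n) (hB : B.card = n)
    (ht : 36 * n ^ 2 < 2 ^ t) (G : Type) [AddCommGroup G] (h1 : Embeds W G) (h2 : Embeds B G) :
    ∃ (H : Type) (_ : AddCommGroup H) (T : Finset H), T.card ≤ t ∧
      AddSubgroup.closure (T : Set H) = ⊤ ∧ Embeds W H ∧ Embeds B H := by
  classical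
  obtain ⟨α, β, γ, a1, a2, a3, a4⟩ := h1
  obtain ⟨α', β', γ', b1, b2, b3, b4⟩ := h2
  let U : Finset G := (W.biUnion fun x => {α x.1, β x.2.1, γ x.2.2}) ∪
    (B.biUnion fun x => {α' x.1, β' x.2.1, γ' x.2.2})
  have hU : U.card ≤ 6 * n := by
    have c1 := Finset.card_biUnion_le_card_mul W (fun x => ({α x.1, β x.2.1, γ x.2.2} : Finset G))
      3 fun x _ => Finset.card_le_three
    have c2 := Finset.card_biUnion_le_card_mul B
      (fun x => ({α' x.1, β' x.2.1, γ' x.2.2} : Finset G)) 3 fun x _ => Finset.card_le_three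
    exact (Finset.card_union_le _ _).trans (by omega)
  obtain ⟨H, iH, T, f, hT, hc, hf, hadd⟩ := small U t
    (lt_of_le_of_lt ((Nat.mul_le_mul hU hU).trans (le_of_eq (by ring))) ht)
  have key : ∀ (P : Finset (ℕ × ℕ × ℕ)) (α β γ : ℕ → G),
      (∀ x ∈ P, α x.1 ∈ U ∧ β x.2.1 ∈ U ∧ γ x.2.2 ∈ U) →
      Set.InjOn α {r | ∃ x ∈ P, x.1 = r} → Set.InjOn β {c | ∃ x ∈ P, x.2.1 = c} →
      Set.InjOn γ {s | ∃ x ∈ P, x.2.2 = s} → (∀ x ∈ P, α x.1 + β x.2.1 = γ x.2.2) →
      Embeds P H := by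
    intro P α β γ hm c1 c2 c3 c4
    refine ⟨f ∘ α, f ∘ β, f ∘ γ, hf.comp c1 ?_, hf.comp c2 ?_, hf.comp c3 ?_, fun x hx =>
      hadd _ (hm x hx).1 _ (hm x hx).2.1 _ (hm x hx).2.2 (c4 x hx)⟩
    · rintro _ ⟨x, hx, rfl⟩
      exact (hm x hx).1
    · rintro _ ⟨x, hx, rfl⟩
      exact (hm x hx).2.1
    · rintro _ ⟨x, hx, rfl⟩
      exact (hm x hx).2.2
  refine ⟨H, iH, T, hT, hc, key W α β γ (fun x hx => ?_) a1 a2 a3 a4,
    key B α' β' γ' (fun x hx => ?_) b1 b2 b3 b4⟩
  · refine ⟨?_, ?_, ?_⟩ <;>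
      exact Finset.mem_union_left _ (Finset.mem_biUnion.2 ⟨x, hx, by simp⟩)
  · refine ⟨?_, ?_, ?_⟩ <;>
      exact Finset.mem_union_right _ (Finset.mem_biUnion.2 ⟨x, hx, by simp⟩)

end Pool.Agent.Results.MP_4671c3_co.LogRank
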